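import Pool.Agent.Helper12.MA.StD
import Pool.Agent.Helper12.MA.Lib

/-!
# Project MA, module SUB: a good edge, or the exceptional situation
-/

set_option autoImplicit false

namespace Pool.Agent.Helper25.MA

open Pool.Agent.Helper12.MA
open Pool.Agent.Helper51.AJ (IsMinor Planar Apex ExMinor Con Tch)
open Pool.Agent.Helper12.NK (rst Kc add cnt Pcy IsFace Cof plus)

/-- an edge which is not good has a nontrivial separation -/
private lemma ngood {V : Type} {G : SimpleGraph V} {x y : V} (h : ¬ Good G x y) :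
    ∃ Q L R, Sep G Q x y L R ∧ L ≠ {x} ∧ R ≠ {y} := by
  unfold Good at h
  push Not at h
  obtain ⟨Q, L, R, h1, h2, h3⟩ := h
  exact ⟨Q, L, R, h1, h2, h3⟩

/-- SUB. -/
theorem hSUB (hBAS : StBAS) (hSPB : StSPB) (hSUM : StSUM) (hSUX : StSUX) : StSUB := by
  intro V _ G bh
  by_cases hg : ∃ x y, G.Adj x y ∧ Good G x y
  · exact Or.inl hg
  right
  have hng : ∀ u v, G.Adj u v → ¬ Good G u v := fun u v h h' => hg ⟨u, v, h, h'⟩
  -- an edge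
  obtain ⟨x0⟩ : Nonempty V := by
    have h8 := bh.n8
    exact (Nat.card_pos_iff.1 (by omega)).1
  obtain ⟨y0, h0⟩ : ∃ y0, G.Adj x0 y0 := by
    have h5 := (hBAS V G bh).2.2.2.1 x0
    obtain ⟨y0, h⟩ : ({a | G.Adj x0 a} : Set V).Nonempty := by
      apply Set.nonempty_of_ncard_ne_zero
      omega
    exact ⟨y0, h⟩
  -- a minimal side
  classical
  have hex : ∃ n : ℕ, ∃ (Q L R : Set V) (x y : V), Sep G Q x y L R ∧ L ≠ {x} ∧ R ≠ {y} ∧
      L.ncard = n := by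
    obtain ⟨Q, L, R, h1, h2, h3⟩ := ngood (hng x0 y0 h0)
    exact ⟨L.ncard, Q, L, R, x0, y0, h1, h2, h3, rfl⟩
  obtain ⟨Q, L, R, x, y, hS, hL, hR, hn⟩ := Nat.find_spec hex
  have hmin : ∀ (Q₁ L₁ R₁ : Set V) (a b : V), Sep G Q₁ a b L₁ R₁ → L₁ ≠ {a} → R₁ ≠ {b} →
      L.ncard ≤ L₁.ncard := by
    intro Q₁ L₁ R₁ a b h1 h2 h3
    rw [hn]
    exact Nat.find_min' hex ⟨Q₁, L₁, R₁, a, b, h1, h2, h3, rfl⟩
  -- a neighbour of `x` in `L`
  obtain ⟨x', hx', hadj⟩ : ∃ x' ∈ L, G.Adj x x' := by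
    have h4 := (hSPB V G Q L R x y bh hS).2.2.2.1 hL
    have h5 : x ∈ Nb G (L \ {x}) := by
      rw [h4]
      exact Set.mem_insert _ _
    obtain ⟨_, a, ha, h6⟩ := h5
    exact ⟨a, ha.1, h6.symm⟩
  obtain ⟨Q', L', R', hS', hL', hR'⟩ := ngood (hng x x' hadj)
  rcases hSUM V G Q L R Q' L' R' x y x' bh hS hS' hx' hL hR hL' hR' hmin with
    ⟨q₁, q₂, q₃, q₄, h⟩ | ⟨l, c, a, b₁, b₂, h1, h2, h3, h4, h5, h6, h7, h8, h9, h10⟩
  · exact ⟨x, x', y, q₁, q₂, q₃, q₄, h⟩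
  · exact (hSUX V G x x' y l c a b₁ b₂ bh hng h1 h2 h3 h4 h5 h6 h7 h8 h9 h10).elim

end Pool.Agent.Helper25.MA
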